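import Pool.Agent.W434.BW.StmB

set_option autoImplicit false

/-!
Project BW (helper434), part GT: consistent mixed instances have solutions.
-/

namespace Pool.Agent.W15.BW

open Pool.Agent.W434.BW

section Sub

variable {Ω : Type} {ar : Ω → ℕ}

/-- an absorbing subset of a subalgebra which is not absorption free -/
theorem notAF_sub {A : Type} {a : Alg ar A} {P : Set A} (h : Sub a P)
    (hn : ¬ AF (subA a P h)) :
    ∃ C : Set A, Sub a C ∧ C ⊆ P ∧ C.Nonempty ∧ C ≠ P ∧ ∃ t, RAbs a t C P := by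
  unfold AF at hn
  push Not at hn
  obtain ⟨C, hC, ⟨c0, hc0⟩, ⟨t, ht⟩, hne⟩ := hn
  refine ⟨Subtype.val '' C, ?_, ?_, ⟨c0, c0, hc0, rfl⟩, ?_, t, ?_⟩
  · intro ω x hx
    choose y hy hyx using hx
    refine ⟨subA a P h ω y, hC ω y hy, ?_⟩
    show a ω (fun i => (y i).1) = a ω x
    congr 1
    funext i
    exact hyx i
  · rintro _ ⟨c, -, rfl⟩
    exact c.2
  · intro he
    apply hne
    ext c
    refine ⟨fun _ => trivial, fun _ => ?_⟩
    have : (c : A) ∈ Subtype.val '' C := by rw [he]; exact c.2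
    obtain ⟨c', hc', e⟩ := this
    rwa [← Subtype.ext e]
  · rintro _ ⟨c, hc, rfl⟩ _ ⟨d, hd, rfl⟩ x hx
    have key : ∀ (p q r : P), ((t.ev (subA a P h) ![p, q, r] : P) : A) =
        t.ev a ![(p : A), q, r] := by
      intro p q r
      rw [ev_sub, vec3 (fun s : P => (s : A))]
    obtain ⟨h1, h2, h3⟩ := ht c hc d hd ⟨x, hx⟩
    refine ⟨?_, ?_, ?_⟩
    · exact ⟨_, h1, key _ _ _⟩
    · exact ⟨_, h2, key _ _ _⟩
    · exact ⟨_, h3, key _ _ _⟩

/-- in an absorption free subalgebra absorbing subuniverses are full -/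
theorem AF_full {A : Type} {a : Alg ar A} {P : Set A} (h : Sub a P) (hAF : AF (subA a P h))
    (C : Set A) (hC : Sub a C) (hCP : C ⊆ P) (hne : C.Nonempty) (t : Tm ar (Fin 3))
    (ht : RAbs a t C P) : C = P := by
  have h1 : {c : P | (c : A) ∈ C} = Set.univ := by
    apply hAF
    · intro ω x hx
      exact hC ω _ hx
    · obtain ⟨c, hc⟩ := hne
      exact ⟨⟨c, hCP hc⟩, hc⟩
    · refine ⟨t, ?_⟩
      intro c hc d hd x
      have key : ∀ (p q r : P), ((t.ev (subA a P h) ![p, q, r] : P) : A) =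
          t.ev a ![(p : A), q, r] := by
        intro p q r
        rw [ev_sub, vec3 (fun s : P => (s : A))]
      obtain ⟨h1, h2, h3⟩ := ht c hc d hd x x.2
      refine ⟨?_, ?_, ?_⟩
      · show ((t.ev (subA a P h) ![c, d, x] : P) : A) ∈ C
        rw [key]; exact h1
      · show ((t.ev (subA a P h) ![c, x, d] : P) : A) ∈ C
        rw [key]; exact h2
      · show ((t.ev (subA a P h) ![x, c, d] : P) : A) ∈ C
        rw [key]; exact h3
  apply Set.Subset.antisymm hCP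
  intro x hx
  have h2 : (⟨x, hx⟩ : P) ∈ ({c : P | (c : A) ∈ C} : Set P) := by rw [h1]; trivial
  exact h2

/-- projections of absorbing subsets of a relation are full -/
theorem proj_full {A ι : Type} {a : Alg ar A} {R C : Set (ι → A)} (i : ι) {P : Set A}
    (h : Sub a P) (hAF : AF (subA a P h)) (hC : Sub (piA a ι) C) (hCR : C ⊆ R)
    (hne : C.Nonempty) (t : Tm ar (Fin 3)) (ht : RAbs (piA a ι) t C R)
    (hdom : ∀ r ∈ R, r i ∈ P) (hext : ∀ x ∈ P, ∃ r ∈ R, r i = x) :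
    ∀ x ∈ P, ∃ r ∈ C, r i = x := by
  have h1 : {x | ∃ r ∈ C, r i = x} = P := by
    apply AF_full h hAF _ _ _ _ t
    · rintro _ ⟨r, hr, rfl⟩ _ ⟨r', hr', rfl⟩ x hx
      obtain ⟨r2, hr2, rfl⟩ := hext x hx
      have key : ∀ (p q s : ι → A), t.ev (piA a ι) ![p, q, s] i = t.ev a ![p i, q i, s i] := by
        intro p q s
        rw [ev_pi, vec3 (fun f : ι → A => f i)]
      obtain ⟨h1, h2, h3⟩ := ht r hr r' hr' r2 hr2
      exact ⟨⟨_, h1, key _ _ _⟩, ⟨_, h2, key _ _ _⟩, ⟨_, h3, key _ _ _⟩⟩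
    · intro ω x hx
      choose r hr hrx using hx
      refine ⟨piA a ι ω r, hC ω r hr, ?_⟩
      show a ω (fun j => r j i) = a ω x
      congr 1
      funext j
      exact hrx j
    · rintro _ ⟨r, hr, rfl⟩
      exact hdom r (hCR hr)
    · obtain ⟨r, hr⟩ := hne
      exact ⟨r i, r, hr, rfl⟩
  intro x hx
  have : x ∈ {x | ∃ r ∈ C, r i = x} := by rw [h1]; exact hx
  exact this

end Sub

theorem sub_rel {Ω A : Type} {ar : Ω → ℕ} (a : Alg ar A) (S : Set A) :
    Sub a S ↔ Rel a a (fun x y => x = y ∧ x ∈ S) := by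
  constructor
  · intro h ω x y hxy
    have : x = y := funext fun i => (hxy i).1
    subst this
    exact ⟨rfl, h ω x fun i => (hxy i).2⟩
  · intro h ω x hx
    exact (h ω x x fun i => ⟨rfl, hx i⟩).2

theorem two_sub {Ω1 Ω2 A : Type} {ar1 : Ω1 → ℕ} {ar2 : Ω2 → ℕ} {u1 : Tm ar1 (Fin 3)}
    {u2 : Tm ar2 (Fin 3)} {a1 : Alg ar1 A} {a2 : Alg ar2 A} (h : Two u1 u2 a1 a2) (S : Set A) :
    Sub a1 S ↔ Sub a2 S := by
  rw [sub_rel, sub_rel, h.inv]

theorem gt (_hp : S_prodAF) (hV : S_redV) (hK : S_redK) (hA : S_redA) : S_GT := by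
  intro Ω1 Ω2 ar1 ar2 V K A _ _ _ ι _ M u1 u2 a1 a2 h2 hM hQ
  classical
  have := Fintype.ofFinite V
  have := Fintype.ofFinite K
  have main : ∀ n : ℕ, ∀ M : MI V K A ι,
      (∑ x, (M.P x).ncard + ∑ k, (M.R k).ncard) = n → M.Ok a1 a2 → M.sys.Qc →
      ∃ f : V → A, ∀ k, (fun i => f (M.σ k i)) ∈ M.R k := by
    intro n
    induction n using Nat.strong_induction_on with
    | _ n ih =>
    intro M hn hM hQ
    -- it is enough to have a reduction
    have step : M.Red a1 a2 → ∃ f : V → A, ∀ k, (fun i => f (M.σ k i)) ∈ M.R k := by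
      rintro ⟨R', P', hok, hqc, hR, hP, hlt⟩
      have h1 : ∀ x, (P' x).ncard ≤ (M.P x).ncard := fun x =>
        Set.ncard_le_ncard (hP x) (Set.toFinite _)
      have h3 : ∀ k, (R' k).ncard ≤ (M.R k).ncard := fun k =>
        Set.ncard_le_ncard (hR k) (Set.toFinite _)
      have h4 : (∑ x, (P' x).ncard + ∑ k, (R' k).ncard) < n := by
        rw [← hn]
        rcases hlt with ⟨x, hx⟩ | ⟨k, hk⟩
        · have h5 : (P' x).ncard < (M.P x).ncard :=
            Set.ncard_lt_ncard ((hP x).ssubset_of_ne hx) (Set.toFinite _)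
          exact add_lt_add_of_lt_of_le
            (Finset.sum_lt_sum (fun y _ => h1 y) ⟨x, Finset.mem_univ _, h5⟩)
            (Finset.sum_le_sum fun k _ => h3 k)
        · have h5 : (R' k).ncard < (M.R k).ncard :=
            Set.ncard_lt_ncard ((hR k).ssubset_of_ne hk) (Set.toFinite _)
          exact add_lt_add_of_le_of_lt (Finset.sum_le_sum fun x _ => h1 x)
            (Finset.sum_lt_sum (fun y _ => h3 y) ⟨k, Finset.mem_univ _, h5⟩)
      obtain ⟨f, hf⟩ := ih _ h4 ({ M with R := R', P := P' } : MI V K A ι) rfl hok hqc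
      exact ⟨f, fun k => hR k (hf k)⟩
    have hS1 : ∀ x, Sub a1 (M.P x) := hM.subP
    have hS2 : ∀ x, Sub a2 (M.P x) := fun x => (two_sub h2 _).1 (hS1 x)
    by_cases c1 : ∀ x, AF (subA a1 (M.P x) (hS1 x))
    swap
    · push Not at c1
      obtain ⟨x, hx⟩ := c1
      obtain ⟨C, hC, hCP, hCn, hCne, t1, ht1⟩ := notAF_sub _ hx
      obtain ⟨t2, ht2⟩ := (h2.h3 (M.P x) C (hS1 x) hC hCP hCn).1 ⟨t1, ht1⟩
      exact step (hV Ω1 Ω2 ar1 ar2 V K A ι M u1 u2 a1 a2 h2 hM hQ x C t1 t2 hC hCP hCn hCne ht1 ht2)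
    by_cases c2 : ∀ x, AF (subA a2 (M.P x) (hS2 x))
    swap
    · push Not at c2
      obtain ⟨x, hx⟩ := c2
      obtain ⟨C, hC, hCP, hCn, hCne, t2, ht2⟩ := notAF_sub _ hx
      have hC1 : Sub a1 C := (two_sub h2 _).2 hC
      obtain ⟨t1, ht1⟩ := (h2.h3 (M.P x) C (hS1 x) hC1 hCP hCn).2 ⟨t2, ht2⟩
      exact step (hV Ω1 Ω2 ar1 ar2 V K A ι M u1 u2 a1 a2 h2 hM hQ x C t1 t2 hC1 hCP hCn hCne ht1 ht2)
    by_cases c3 : ∀ k (hk : M.fl k), AF (subA (piA a1 (ι k)) (M.R k) (hM.sub1 k hk))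
    swap
    · push Not at c3
      obtain ⟨k, hk, hx⟩ := c3
      obtain ⟨C, hC, hCP, hCn, hCne, t, ht⟩ := notAF_sub _ hx
      refine step (hK Ω1 Ω2 ar1 ar2 V K A ι M u1 u2 a1 a2 h2 hM hQ k C hCP hCn hCne ?_
        (Or.inl ⟨hk, hC, t, ht⟩))
      intro i
      exact proj_full i (hS1 _) (c1 _) hC hCP hCn t ht (fun r hr => hM.dom k r hr i) (hM.ext k i)
    by_cases c4 : ∀ k (hk : ¬ M.fl k), AF (subA (piA a2 (ι k)) (M.R k) (hM.sub2 k hk))
    swap
    · push Not at c4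
      obtain ⟨k, hk, hx⟩ := c4
      obtain ⟨C, hC, hCP, hCn, hCne, t, ht⟩ := notAF_sub _ hx
      refine step (hK Ω1 Ω2 ar1 ar2 V K A ι M u1 u2 a1 a2 h2 hM hQ k C hCP hCn hCne ?_
        (Or.inr ⟨hk, hC, t, ht⟩))
      intro i
      exact proj_full i (hS2 _) (c2 _) hC hCP hCn t ht (fun r hr => hM.dom k r hr i) (hM.ext k i)
    by_cases c5 : ∃ x, ∃ c ∈ M.P x, ∃ d ∈ M.P x, c ≠ d
    · exact step (hA Ω1 Ω2 ar1 ar2 V K A ι M u1 u2 a1 a2 h2 hM hQ (fun x _ => c1 x)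
        (fun x _ => c2 x) (fun k hk _ => c3 k hk) (fun k hk _ => c4 k hk) c5)
    · push Not at c5
      choose f hf using hM.ne
      refine ⟨f, fun k => ?_⟩
      obtain ⟨r, hr⟩ := hM.neR k
      have : (fun i => f (M.σ k i)) = r := funext fun i =>
        c5 _ _ (hf _) _ (hM.dom k r hr i)
      rw [this]
      exact hr
  exact main _ M rfl hM hQ

end Pool.Agent.W15.BW
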